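import Pool.Agent.Lib.MP_fb3619_al.Iface

set_option autoImplicit false

/-!
# K0FI: `K⁰` has finite index in a finitely generated `K` (helper28)
-/

universe u

namespace Pool.Agent.FourGp.H28

open Pool.Agent.FourGp

theorem k0fi (hK : KclsS.{u}) : K0fiS.{u} := by
  intro G _ H K a b c h hfg
  have hle : K0 H K ≤ K := fun k hk => hk.1
  obtain ⟨-, hcomm, hnor⟩ := hK G H K a b c h
  set N : Subgroup K := (K0 H K).subgroupOf K with hN
  have hNn : N.Normal := by
    refine ⟨fun n hn g => ?_⟩
    rw [hN, Subgroup.mem_subgroupOf] at hn ⊢
    have := hnor (g : G)⁻¹ (H.inv_mem (h.le g.2)) n hn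
    simpa using this
  have hKfg : Group.FG K := (Group.fg_iff_subgroup_fg K).2 hfg
  have hfin : Finite (K ⧸ N) := by
    let _ : CommGroup (K ⧸ N) :=
      { QuotientGroup.Quotient.group N with
        mul_comm := by
          intro x y
          induction x using QuotientGroup.induction_on with
          | H x =>
            induction y using QuotientGroup.induction_on with
            | H y =>
              rw [← QuotientGroup.mk_mul, ← QuotientGroup.mk_mul, QuotientGroup.eq, hN,
                Subgroup.mem_subgroupOf]
              have := hcomm (y : G) y.2 (x : G) x.2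
              have e : (((x * y)⁻¹ * (y * x) : K) : G) = (y : G)⁻¹ * (x : G)⁻¹ * y * x := by
                push_cast
                group
              rw [e]
              exact this }
    have : Group.FG (K ⧸ N) := QuotientGroup.fg N
    apply CommGroup.finite_of_fg_isMulTorsion
    intro x
    induction x using QuotientGroup.induction_on with
    | H x =>
      obtain ⟨n, hn⟩ := h.odd (x : G) x.2
      rw [isOfFinOrder_iff_pow_eq_one]
      refine ⟨2 * n + 1, by omega, ?_⟩
      rw [← QuotientGroup.mk_pow]
      have : x ^ (2 * n + 1) = 1 := by
        apply Subtype.ext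
        push_cast
        exact hn
      rw [this]
      rfl
  have hidx : N.index ≠ 0 := Subgroup.index_ne_zero_of_finite
  refine ⟨hle, hidx, ?_⟩
  have : N.FiniteIndex := ⟨hidx⟩
  have hNfg : Group.FG N := Subgroup.fg_of_index_ne_zero N
  have e : (K.subtype.comp N.subtype).range = K0 H K := by
    rw [MonoidHom.range_comp, Subgroup.range_subtype, hN, Subgroup.subgroupOf_map_subtype,
      inf_eq_left.2 hle]
  rw [← e]
  exact (Group.fg_iff_subgroup_fg _).1 (Group.fg_range (K.subtype.comp N.subtype))

end Pool.Agent.FourGp.H28
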