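import Pool.Agent.Lib.MP_fb3619_al.H28.FlatU
import Pool.Agent.Lib.MP_fb3619_al.H78.Fsol

/-!
# MP_fb3619_al: FSOL (helper78) in the form used by FLU
-/

set_option autoImplicit false

universe u

namespace Pool.Agent.FourGp.H28f

/-- an involutive endomorphism as an automorphism -/
def invEquiv {W : Type u} [Group W] (α : W →* W) (h : ∀ x, α (α x) = x) : W ≃* W where
  toFun := α
  invFun := α
  left_inv := h
  right_inv := h
  map_mul' := map_mul α

theorem fsolS : FsolS.{u} := by
  intro W _ _ ho α β h1 h2 h3 h4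
  refine Pool.Agent.FourGp.H78.fsol W (invEquiv α h1) (invEquiv β h2) ⟨h1, h2, h3, ?_, h4⟩
  intro k
  obtain ⟨n, hn⟩ := ho
  exact ⟨n, by rw [← hn]; exact pow_card_eq_one'⟩

/-- flatness from the corollary of LEMMA H -/
theorem flf' (hC : CenS.{u}) : FlfS.{u} := flf hC fsolS

end Pool.Agent.FourGp.H28f
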