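import Pool.Agent.Lib.MP_fb3619_al.H28.Flat

/-!
# MP_fb3619_al: flatness (finite groups of odd order, no solubility assumed)

Row FLU of the route without the odd order theorem. `CenS`: in the configuration `Cg` the fixed
points of the four-group are central (corollary of LEMMA H). `FsolS`: a finite group of odd order on
which a four-group acts without fixed points is soluble (row FSOL). Conclusion: `FlfS`, the fixed
points are trivial in every finite configuration `Cg`.
-/

set_option autoImplicit false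

universe u

namespace Pool.Agent.FourGp.H28f

/-- the fixed points are central (input, corollary of LEMMA H) -/
def CenS : Prop := ∀ (W : Type u) [Group W] [Finite W] (α β : W →* W) (Sa Sb Sc : Subgroup W),
  Cg α β Sa Sb Sc → ∀ f, α f = f → β f = f → ∀ w, f * w = w * f

/-- fixed point free four-groups (input, row FSOL) -/
def FsolS : Prop := ∀ (W : Type u) [Group W] [Finite W], Odd (Nat.card W) →
  ∀ α β : W →* W, (∀ x, α (α x) = x) → (∀ x, β (β x) = x) → (∀ x, α (β x) = β (α x)) →
  (∀ f, α f = f → β f = f → f = 1) → Group.IsSolvable W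

/-- flatness of the finite configurations -/
def FlfS : Prop := ∀ (W : Type u) [Group W] [Finite W] (α β : W →* W) (Sa Sb Sc : Subgroup W),
  Cg α β Sa Sb Sc → ∀ f, α f = f → β f = f → f = 1

/-- a configuration with central fixed points is soluble -/
theorem solv_of_cen (hF : FsolS.{u}) {W : Type u} [Group W] [Finite W] {α β : W →* W}
    {Sa Sb Sc : Subgroup W} (h : Cg α β Sa Sb Sc)
    (hc : ∀ f, α f = f → β f = f → ∀ w, f * w = w * f) : Group.IsSolvable W := by
  obtain ⟨N, hN⟩ : ∃ N, N = Cg.Fp α β := ⟨_, rfl⟩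
  have hmem : ∀ x, x ∈ N ↔ α x = x ∧ β x = x := fun x => by rw [hN]; exact Cg.mem_Fp
  have hn : N.Normal := by
    refine ⟨fun f hf g => ?_⟩
    obtain ⟨h1, h2⟩ := (hmem f).1 hf
    rw [← hc f h1 h2 g, mul_inv_cancel_right]
    exact hf
  have hα : ∀ x ∈ N, α x ∈ N := fun x hx => by rw [((hmem x).1 hx).1]; exact hx
  have hβ : ∀ x ∈ N, β x ∈ N := fun x hx => by rw [((hmem x).1 hx).2]; exact hx
  have ho : Odd (Nat.card (W ⧸ N)) := h.odd.of_dvd_nat (Subgroup.card_quotient_dvd_card N)
  have mα : ∀ x : W, QuotientGroup.map N N α hα (QuotientGroup.mk' N x)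
      = QuotientGroup.mk' N (α x) := fun x => rfl
  have mβ : ∀ x : W, QuotientGroup.map N N β hβ (QuotientGroup.mk' N x)
      = QuotientGroup.mk' N (β x) := fun x => rfl
  have hq : Group.IsSolvable (W ⧸ N) := by
    refine hF (W ⧸ N) ho (QuotientGroup.map N N α hα) (QuotientGroup.map N N β hβ) ?_ ?_ ?_ ?_
    · intro y
      obtain ⟨x, rfl⟩ := QuotientGroup.mk'_surjective N y
      rw [mα, mα, h.aa]
    · intro y
      obtain ⟨x, rfl⟩ := QuotientGroup.mk'_surjective N y
      rw [mβ, mβ, h.bb]
    · intro y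
      obtain ⟨x, rfl⟩ := QuotientGroup.mk'_surjective N y
      rw [mβ, mα, mα, mβ, h.ab]
    · intro y h1 h2
      obtain ⟨x, rfl⟩ := QuotientGroup.mk'_surjective N y
      rw [mα] at h1
      rw [mβ] at h2
      have e1 := fxp_mk (σ := α) h1
      have h3 : QuotientGroup.mk' N (β (fxp α x)) = QuotientGroup.mk' N (fxp α x) := by
        rw [← mβ, e1, mβ, h2]
      have f1 : α (fxp β (fxp α x)) = fxp β (fxp α x) :=
        fxp_map (fun z => (h.ab z).symm) (fxp_fix h.odd h.aa x)
      have f2 : β (fxp β (fxp α x)) = fxp β (fxp α x) := fxp_fix h.odd h.bb _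
      have e3 : QuotientGroup.mk' N (fxp β (fxp α x)) = QuotientGroup.mk' N x := by
        rw [fxp_mk h3, e1]
      rw [← e3]
      exact (QuotientGroup.eq_one_iff _).2 ((hmem _).2 ⟨f1, f2⟩)
  have hNs : Group.IsSolvable N := by
    have hcomm : ∀ x y : N, x * y = y * x := fun x y =>
      Subtype.ext (hc x.1 ((hmem x.1).1 x.2).1 ((hmem x.1).1 x.2).2 y.1)
    exact Group.isSolvable_of_comm hcomm
  exact Group.isSolvable_of_ker_le_range N.subtype (QuotientGroup.mk' N) (by
    rw [QuotientGroup.ker_mk', Subgroup.range_subtype])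

/-- **FLU** -/
theorem flf (hC : CenS.{u}) (hF : FsolS.{u}) : FlfS.{u} := by
  intro W _ _ α β Sa Sb Sc h
  have : Group.IsSolvable W := solv_of_cen hF h (fun f h1 h2 => hC W α β Sa Sb Sc h f h1 h2)
  exact flat_fin _ W α β Sa Sb Sc rfl h

end Pool.Agent.FourGp.H28f
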