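import Pool.Agent.Lib.MP_fb3619_al.H28.FlatV
import Pool.Agent.Lib.MP_fb3619_al.H28.FsolA
import Pool.Agent.Lib.MP_fb3619_al.H42.Cen

/-!
# MP_fb3619_al, board FPF: FLATNESS (row FLAT), no solubility assumed
-/

set_option autoImplicit false

universe u

namespace Pool.Agent.FourGp.FF.Fp

/-- **FLATNESS.** -/
theorem flat : FlatS.{u} := flat' (Pool.Agent.FourGp.H28f.flf' Pool.Agent.FourGp.H28f.cenS)

end Pool.Agent.FourGp.FF.Fp
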