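import Mathlib

/-!
# MP_fb3619_al: flatness (finite soluble groups)

`W` is a finite soluble group of odd order with two commuting automorphisms `α`, `β` of order
dividing two (the four-group `V`), generated by subgroups `S_a`, `S_b`, `S_c`; the elements of `S_a`
are fixed by `α`, inverted by `β` and commute with all elements fixed by `α` and inverted by `β`
(cyclically for `S_b`, `S_c`), and the `S_v` are normalised by the fixed points of `V`. Then `V` has
no fixed points.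
-/

set_option autoImplicit false

universe u

namespace Pool.Agent.FourGp.H28f

open scoped commutatorElement

variable {W : Type u} [Group W]

/-- The configuration. -/
structure Cg (α β : W →* W) (Sa Sb Sc : Subgroup W) : Prop where
  odd : Odd (Nat.card W)
  aa : ∀ x, α (α x) = x
  bb : ∀ x, β (β x) = x
  ab : ∀ x, α (β x) = β (α x)
  sa : ∀ s ∈ Sa, α s = s ∧ β s = s⁻¹
  sb : ∀ s ∈ Sb, α s = s⁻¹ ∧ β s = s
  sc : ∀ s ∈ Sc, α s = s⁻¹ ∧ β s = s⁻¹
  ca : ∀ s ∈ Sa, ∀ x, α x = x → β x = x⁻¹ → s * x = x * s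
  cb : ∀ s ∈ Sb, ∀ x, α x = x⁻¹ → β x = x → s * x = x * s
  cc : ∀ s ∈ Sc, ∀ x, α x = x⁻¹ → β x = x⁻¹ → s * x = x * s
  na : ∀ f, α f = f → β f = f → ∀ s ∈ Sa, f⁻¹ * s * f ∈ Sa
  nb : ∀ f, α f = f → β f = f → ∀ s ∈ Sb, f⁻¹ * s * f ∈ Sb
  nc : ∀ f, α f = f → β f = f → ∀ s ∈ Sc, f⁻¹ * s * f ∈ Sc
  gen : Sa ⊔ Sb ⊔ Sc = ⊤

/-- an element equal to its inverse is trivial -/
theorem one_of_inv (ho : Odd (Nat.card W)) {x : W} (hx : x = x⁻¹) : x = 1 := by
  have h2 : x * x = 1 := by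
    nth_rewrite 2 [hx]
    exact mul_inv_cancel x
  obtain ⟨n, hn⟩ := ho
  have h3 : x ^ Nat.card W = 1 := pow_card_eq_one'
  rw [hn, pow_succ, pow_mul, sq, h2, one_pow, one_mul] at h3
  exact h3

theorem one_of_four (ho : Odd (Nat.card W)) {x : W} (hx : x ^ 4 = 1) : x = 1 := by
  have h1 : x ^ 2 = 1 := by
    refine one_of_inv ho (eq_inv_of_mul_eq_one_left ?_)
    rw [← pow_add]
    exact hx
  refine one_of_inv ho (eq_inv_of_mul_eq_one_left ?_)
  rw [← sq]
  exact h1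

/-- the exponent `(m + 1) / 2` -/
noncomputable def hk (W : Type u) : ℕ := (Nat.card W + 1) / 2

omit [Group W] in
theorem hk_two (ho : Odd (Nat.card W)) : 2 * hk W = Nat.card W + 1 := by
  obtain ⟨n, hn⟩ := ho
  unfold hk
  omega

theorem pow_hk_hk (ho : Odd (Nat.card W)) (x : W) : x ^ hk W * x ^ hk W = x := by
  rw [← pow_add, ← two_mul, hk_two ho, pow_succ, pow_card_eq_one', one_mul]

theorem mul_pow_hk (ho : Odd (Nat.card W)) (x : W) : x * (x ^ hk W)⁻¹ = x ^ hk W := by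
  nth_rewrite 1 [← pow_hk_hk ho x]
  group

/-- the fixed part of `x` -/
noncomputable def fxp (σ : W →* W) (x : W) : W := x * (x⁻¹ * σ x) ^ hk W

/-- the inverted part of `x` -/
noncomputable def ivp (σ : W →* W) (x : W) : W := (x * (σ x)⁻¹) ^ hk W

theorem fxp_fix (ho : Odd (Nat.card W)) {σ : W →* W} (hs : ∀ x, σ (σ x) = x) (x : W) :
    σ (fxp σ x) = fxp σ x := by
  unfold fxp
  have e : σ (x⁻¹ * σ x) = (x⁻¹ * σ x)⁻¹ := by
    rw [map_mul, map_inv, hs, mul_inv_rev, inv_inv]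
  rw [map_mul, map_pow, e]
  have e2 : σ x = x * (x⁻¹ * σ x) := by group
  rw [inv_pow]
  nth_rewrite 1 [e2]
  rw [mul_assoc, mul_pow_hk ho]

theorem ivp_inv {σ : W →* W} (hs : ∀ x, σ (σ x) = x) (x : W) :
    σ (ivp σ x) = (ivp σ x)⁻¹ := by
  unfold ivp
  rw [map_pow, map_mul, map_inv, hs, ← inv_pow, mul_inv_rev, inv_inv]

theorem fxp_map {σ τ : W →* W} (hc : ∀ x, σ (τ x) = τ (σ x)) {x : W} (hx : τ x = x) :
    τ (fxp σ x) = fxp σ x := by
  unfold fxp
  rw [map_mul, map_pow, map_mul, map_inv, hx, ← hc, hx]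

theorem ivp_map {σ τ : W →* W} (hc : ∀ x, σ (τ x) = τ (σ x)) {x : W} (hx : τ x = x) :
    τ (ivp σ x) = ivp σ x := by
  unfold ivp
  rw [map_pow, map_mul, map_inv, hx, ← hc, hx]

theorem fxp_mk {N : Subgroup W} [N.Normal] {σ : W →* W} {x : W}
    (hx : (QuotientGroup.mk' N (σ x)) = QuotientGroup.mk' N x) :
    QuotientGroup.mk' N (fxp σ x) = QuotientGroup.mk' N x := by
  unfold fxp
  rw [map_mul, map_pow, map_mul, map_inv, hx, inv_mul_cancel, one_pow, mul_one]

theorem ivp_mk (ho : Odd (Nat.card W)) {N : Subgroup W} [N.Normal] {σ : W →* W} {x : W}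
    (hx : (QuotientGroup.mk' N (σ x)) = (QuotientGroup.mk' N x)⁻¹) :
    QuotientGroup.mk' N (ivp σ x) = QuotientGroup.mk' N x := by
  unfold ivp
  have e : (QuotientGroup.mk' N x * QuotientGroup.mk' N x) ^ hk W
      = QuotientGroup.mk' N (x ^ hk W * x ^ hk W) := by
    rw [map_mul, map_pow, ← pow_add, ← sq, ← pow_mul, two_mul]
  rw [map_pow, map_mul, map_inv, hx, inv_inv, e, pow_hk_hk ho]

namespace Cg

variable {α β : W →* W} {Sa Sb Sc : Subgroup W}

/-- the fixed points -/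
def Fp (α β : W →* W) : Subgroup W where
  carrier := {x | α x = x ∧ β x = x}
  one_mem' := ⟨map_one α, map_one β⟩
  mul_mem' := by
    rintro x y ⟨h1, h2⟩ ⟨h3, h4⟩
    exact ⟨by rw [map_mul, h1, h3], by rw [map_mul, h2, h4]⟩
  inv_mem' := by
    rintro x ⟨h1, h2⟩
    exact ⟨by rw [map_inv, h1], by rw [map_inv, h2]⟩

theorem mem_Fp {x : W} : x ∈ Fp α β ↔ α x = x ∧ β x = x := Iff.rfl

/-- closure induction on the generators -/
theorem all_of (h : Cg α β Sa Sb Sc) (H : Subgroup W) (ha : Sa ≤ H) (hb : Sb ≤ H) (hc : Sc ≤ H) :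
    H = ⊤ := by
  rw [eq_top_iff, ← h.gen]
  exact sup_le (sup_le ha hb) hc

/-- the configuration passes to quotients -/
theorem quot (h : Cg α β Sa Sb Sc) (N : Subgroup W) [N.Normal] (hα : ∀ x ∈ N, α x ∈ N)
    (hβ : ∀ x ∈ N, β x ∈ N) [Finite W] :
    Cg (QuotientGroup.map N N α hα) (QuotientGroup.map N N β hβ) (Sa.map (QuotientGroup.mk' N))
      (Sb.map (QuotientGroup.mk' N)) (Sc.map (QuotientGroup.mk' N)) := by
  have ho := h.odd
  have hdvd : Nat.card (W ⧸ N) ∣ Nat.card W := Subgroup.card_quotient_dvd_card N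
  have mα : ∀ x : W, QuotientGroup.map N N α hα (QuotientGroup.mk' N x)
      = QuotientGroup.mk' N (α x) := fun x => rfl
  have mβ : ∀ x : W, QuotientGroup.map N N β hβ (QuotientGroup.mk' N x)
      = QuotientGroup.mk' N (β x) := fun x => rfl
  have sur : ∀ y : W ⧸ N, ∃ x : W, QuotientGroup.mk' N x = y := QuotientGroup.mk'_surjective N
  -- lift of fixed points
  have lf : ∀ y : W ⧸ N, QuotientGroup.map N N α hα y = y → QuotientGroup.map N N β hβ y = y →
      ∃ x : W, α x = x ∧ β x = x ∧ QuotientGroup.mk' N x = y := by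
    intro y h1 h2
    obtain ⟨x, rfl⟩ := sur y
    rw [mα] at h1
    rw [mβ] at h2
    have e1 := fxp_mk (σ := α) h1
    have h3 : QuotientGroup.mk' N (β (fxp α x)) = QuotientGroup.mk' N (fxp α x) := by
      rw [← mβ, e1, mβ, h2]
    refine ⟨fxp β (fxp α x), ?_, fxp_fix ho h.bb _, ?_⟩
    · exact fxp_map (fun z => (h.ab z).symm) (fxp_fix ho h.aa x)
    · rw [fxp_mk h3, e1]
  have la : ∀ y : W ⧸ N, QuotientGroup.map N N α hα y = y → QuotientGroup.map N N β hβ y = y⁻¹ →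
      ∃ x : W, α x = x ∧ β x = x⁻¹ ∧ QuotientGroup.mk' N x = y := by
    intro y h1 h2
    obtain ⟨x, rfl⟩ := sur y
    rw [mα] at h1
    rw [mβ] at h2
    have e1 := fxp_mk (σ := α) h1
    have h3 : QuotientGroup.mk' N (β (fxp α x)) = (QuotientGroup.mk' N (fxp α x))⁻¹ := by
      rw [← mβ, e1, mβ, h2]
    refine ⟨ivp β (fxp α x), ?_, ivp_inv h.bb _, ?_⟩
    · exact ivp_map (fun z => (h.ab z).symm) (fxp_fix ho h.aa x)
    · rw [ivp_mk ho h3, e1]
  have lb : ∀ y : W ⧸ N, QuotientGroup.map N N α hα y = y⁻¹ → QuotientGroup.map N N β hβ y = y →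
      ∃ x : W, α x = x⁻¹ ∧ β x = x ∧ QuotientGroup.mk' N x = y := by
    intro y h1 h2
    obtain ⟨x, rfl⟩ := sur y
    rw [mα] at h1
    rw [mβ] at h2
    have e1 := fxp_mk (σ := β) h2
    have h3 : QuotientGroup.mk' N (α (fxp β x)) = (QuotientGroup.mk' N (fxp β x))⁻¹ := by
      rw [← mα, e1, mα, h1]
    refine ⟨ivp α (fxp β x), ivp_inv h.aa _, ?_, ?_⟩
    · exact ivp_map h.ab (fxp_fix ho h.bb x)
    · rw [ivp_mk ho h3, e1]
  have hγ : ∀ x, (α.comp β) ((α.comp β) x) = x := by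
    intro x
    show α (β (α (β x))) = x
    rw [← h.ab (β x), h.bb, h.aa]
  have hαγ : ∀ x, α ((α.comp β) x) = (α.comp β) (α x) := by
    intro x
    show α (α (β x)) = α (β (α x))
    rw [h.ab x]
  have lc : ∀ y : W ⧸ N, QuotientGroup.map N N α hα y = y⁻¹ → QuotientGroup.map N N β hβ y = y⁻¹ →
      ∃ x : W, α x = x⁻¹ ∧ β x = x⁻¹ ∧ QuotientGroup.mk' N x = y := by
    intro y h1 h2
    obtain ⟨x, rfl⟩ := sur y
    have h4 : QuotientGroup.mk' N ((α.comp β) x) = QuotientGroup.mk' N x := by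
      show QuotientGroup.mk' N (α (β x)) = _
      rw [← mα, ← mβ, h2, map_inv, h1, inv_inv]
    rw [mα] at h1
    have e1 := fxp_mk (σ := α.comp β) h4
    have h3 : QuotientGroup.mk' N (α (fxp (α.comp β) x))
        = (QuotientGroup.mk' N (fxp (α.comp β) x))⁻¹ := by
      rw [← mα, e1, mα, h1]
    have p1 := ivp_inv h.aa (fxp (α.comp β) x)
    have p2 : (α.comp β) (ivp α (fxp (α.comp β) x)) = ivp α (fxp (α.comp β) x) :=
      ivp_map (σ := α) (τ := α.comp β) hαγ (fxp_fix ho hγ x)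
    refine ⟨ivp α (fxp (α.comp β) x), p1, ?_, ?_⟩
    · have p3 : α (β (ivp α (fxp (α.comp β) x))) = ivp α (fxp (α.comp β) x) := p2
      have p4 := congrArg α p3
      rw [h.aa, p1] at p4
      exact p4
    · rw [ivp_mk ho h3, e1]
  refine ⟨?_, ?_, ?_, ?_, ?_, ?_, ?_, ?_, ?_, ?_, ?_, ?_, ?_, ?_⟩
  · exact Odd.of_dvd_nat ho hdvd
  · intro y
    obtain ⟨x, rfl⟩ := sur y
    rw [mα, mα, h.aa]
  · intro y
    obtain ⟨x, rfl⟩ := sur y
    rw [mβ, mβ, h.bb]
  · intro y
    obtain ⟨x, rfl⟩ := sur y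
    rw [mβ, mα, mα, mβ, h.ab]
  · rintro _ ⟨s, hs, rfl⟩
    rw [mα, mβ, (h.sa s hs).1, (h.sa s hs).2]
    exact ⟨rfl, rfl⟩
  · rintro _ ⟨s, hs, rfl⟩
    rw [mα, mβ, (h.sb s hs).1, (h.sb s hs).2]
    exact ⟨rfl, rfl⟩
  · rintro _ ⟨s, hs, rfl⟩
    rw [mα, mβ, (h.sc s hs).1, (h.sc s hs).2]
    exact ⟨rfl, rfl⟩
  · rintro _ ⟨s, hs, rfl⟩ y h1 h2
    obtain ⟨x, e1, e2, rfl⟩ := la y h1 h2
    rw [← map_mul, ← map_mul, h.ca s hs x e1 e2]
  · rintro _ ⟨s, hs, rfl⟩ y h1 h2
    obtain ⟨x, e1, e2, rfl⟩ := lb y h1 h2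
    rw [← map_mul, ← map_mul, h.cb s hs x e1 e2]
  · rintro _ ⟨s, hs, rfl⟩ y h1 h2
    obtain ⟨x, e1, e2, rfl⟩ := lc y h1 h2
    rw [← map_mul, ← map_mul, h.cc s hs x e1 e2]
  · rintro y h1 h2 _ ⟨s, hs, rfl⟩
    obtain ⟨x, e1, e2, rfl⟩ := lf y h1 h2
    exact ⟨x⁻¹ * s * x, h.na x e1 e2 s hs, by rw [map_mul, map_mul, map_inv]⟩
  · rintro y h1 h2 _ ⟨s, hs, rfl⟩
    obtain ⟨x, e1, e2, rfl⟩ := lf y h1 h2
    exact ⟨x⁻¹ * s * x, h.nb x e1 e2 s hs, by rw [map_mul, map_mul, map_inv]⟩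
  · rintro y h1 h2 _ ⟨s, hs, rfl⟩
    obtain ⟨x, e1, e2, rfl⟩ := lf y h1 h2
    exact ⟨x⁻¹ * s * x, h.nc x e1 e2 s hs, by rw [map_mul, map_mul, map_inv]⟩
  · rw [← Subgroup.map_sup, ← Subgroup.map_sup, h.gen]
    exact Subgroup.map_top_of_surjective _ (QuotientGroup.mk'_surjective N)

/-- rotation of the types -/
theorem rot (h : Cg α β Sa Sb Sc) : Cg β (α.comp β) Sb Sc Sa := by
  have g1 : ∀ x, (α.comp β) x = α (β x) := fun x => rfl
  refine ⟨h.odd, h.bb, ?_, ?_, ?_, ?_, ?_, ?_, ?_, ?_, ?_, ?_, ?_, ?_⟩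
  · intro x
    rw [g1, g1, ← h.ab (β x), h.bb, h.aa]
  · intro x
    rw [g1, g1, ← h.ab]
  · intro s hs
    refine ⟨(h.sb s hs).2, ?_⟩
    rw [g1, (h.sb s hs).2, (h.sb s hs).1]
  · intro s hs
    refine ⟨(h.sc s hs).2, ?_⟩
    rw [g1, (h.sc s hs).2, map_inv, (h.sc s hs).1, inv_inv]
  · intro s hs
    refine ⟨(h.sa s hs).2, ?_⟩
    rw [g1, (h.sa s hs).2, map_inv, (h.sa s hs).1]
  · intro s hs x h1 h2
    rw [g1, h1] at h2
    exact h.cb s hs x h2 h1
  · intro s hs x h1 h2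
    rw [g1, h1, map_inv] at h2
    refine h.cc s hs x ?_ h1
    rw [← h2, inv_inv, h2]
  · intro s hs x h1 h2
    rw [g1, h1, map_inv, inv_inj] at h2
    exact h.ca s hs x h2 h1
  · intro f h1 h2
    rw [g1, h1] at h2
    exact h.nb f h2 h1
  · intro f h1 h2
    rw [g1, h1] at h2
    exact h.nc f h2 h1
  · intro f h1 h2
    rw [g1, h1] at h2
    exact h.na f h2 h1
  · rw [← h.gen, sup_comm, ← sup_assoc]

/-- the norm -/
def nm (α β : W →* W) (x : W) : W := x * α x * (β x * α (β x))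

/-- `x`, `α x`, `β x`, `α β x` commute pairwise -/
structure Pc (α β : W →* W) (x : W) : Prop where
  a : x * α x = α x * x
  b : x * β x = β x * x
  c : x * α (β x) = α (β x) * x

theorem Pc.rot (h : Cg α β Sa Sb Sc) {x : W} (hx : Pc α β x) : Pc β (α.comp β) x := by
  refine ⟨hx.b, hx.c, ?_⟩
  have e : β ((α.comp β) x) = α x := by
    show β (α (β x)) = α x
    rw [← h.ab, h.bb]
  rw [e, hx.a]

theorem nm_rot (h : Cg α β Sa Sb Sc) {x : W} (hx : Pc α β x) :
    nm β (α.comp β) x = nm α β x := by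
  have e : β ((α.comp β) x) = α x := by
    show β (α (β x)) = α x
    rw [← h.ab, h.bb]
  have e1 : (α.comp β) x = α (β x) := rfl
  have c1 : α x * β x = β x * α x := by
    have h1 := congrArg α hx.c
    rw [map_mul, map_mul, h.aa] at h1
    exact h1
  have c2 : α x * α (β x) = α (β x) * α x := by
    have h1 := congrArg α hx.b
    rw [map_mul, map_mul] at h1
    exact h1
  unfold nm
  rw [e, e1, ← c2, mul_assoc, ← mul_assoc (β x), ← c1, mul_assoc, mul_assoc]

/-- the key computation -/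
theorem key (h : Cg α β Sa Sb Sc) {t x : W} (ht : t ∈ Sa) (h1 : x * α x = α x * x)
    (hza : α (nm α β x) = nm α β x) (hzb : β (nm α β x) = nm α β x)
    (hzt : t * nm α β x = nm α β x * t)
    (hzu : (x * α x) * nm α β x = nm α β x * (x * α x)) :
    nm α β (t⁻¹ * x * t) = nm α β x := by
  obtain ⟨z, hz⟩ : ∃ z, z = nm α β x := ⟨_, rfl⟩
  obtain ⟨u, hu⟩ : ∃ u, u = x * α x := ⟨_, rfl⟩
  rw [← hz] at hza hzb hzt hzu ⊢
  rw [← hu] at hzu
  have hau : α u = u := by rw [hu, map_mul, h.aa, h1]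
  have hbu : β u = β x * α (β x) := by rw [hu, map_mul, h.ab]
  have hzz : z = u * β u := by rw [hz, hbu, hu]; rfl
  have hbu' : β u = u⁻¹ * z := by rw [hzz]; group
  have hzk : ∀ n : ℕ, u * z ^ n = z ^ n * u := fun n => (Commute.pow_right hzu n)
  have htk : ∀ n : ℕ, t * z ^ n = z ^ n * t := fun n => (Commute.pow_right hzt n)
  -- `v` commutes with `t`
  have hv : t * (u * (z ^ hk W)⁻¹) = (u * (z ^ hk W)⁻¹) * t := by
    refine h.ca t ht _ ?_ ?_
    · rw [map_mul, map_inv, map_pow, hau, hza]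
    · rw [map_mul, map_inv, map_pow, hzb, hbu', mul_inv_rev, inv_inv, mul_assoc,
        mul_pow_hk h.odd]
      have := hzk (hk W)
      calc u⁻¹ * z ^ hk W = u⁻¹ * (z ^ hk W * u) * u⁻¹ := by group
        _ = u⁻¹ * (u * z ^ hk W) * u⁻¹ := by rw [this]
        _ = z ^ hk W * u⁻¹ := by group
  have htu : t * u = u * t := by
    have h3 := htk (hk W)
    calc t * u = t * (u * (z ^ hk W)⁻¹) * z ^ hk W := by group
      _ = u * (z ^ hk W)⁻¹ * (t * z ^ hk W) := by rw [hv]; group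
      _ = u * (z ^ hk W)⁻¹ * (z ^ hk W * t) := by rw [h3]
      _ = u * t := by group
  have htbu : t * β u = β u * t := by
    rw [hbu', ← mul_assoc, mul_assoc u⁻¹, ← hzt, ← mul_assoc]
    congr 1
    calc t * u⁻¹ = u⁻¹ * (u * t) * u⁻¹ := by group
      _ = u⁻¹ * (t * u) * u⁻¹ := by rw [htu]
      _ = u⁻¹ * t := by group
  obtain ⟨s1, s2⟩ := h.sa t ht
  unfold nm
  have e1 : α (t⁻¹ * x * t) = t⁻¹ * α x * t := by rw [map_mul, map_mul, map_inv, s1]
  have e2 : β (t⁻¹ * x * t) = t * β x * t⁻¹ := by rw [map_mul, map_mul, map_inv, s2, inv_inv]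
  have e3 : α (t * β x * t⁻¹) = t * α (β x) * t⁻¹ := by rw [map_mul, map_mul, map_inv, s1]
  rw [e1, e2, e3]
  calc t⁻¹ * x * t * (t⁻¹ * α x * t) * (t * β x * t⁻¹ * (t * α (β x) * t⁻¹))
      = t⁻¹ * (x * α x) * t * (t * (β x * α (β x)) * t⁻¹) := by group
    _ = t⁻¹ * u * t * (t * β u * t⁻¹) := by rw [← hu, ← hbu]
    _ = t⁻¹ * (u * t) * (β u * t * t⁻¹) := by rw [htbu]; group
    _ = t⁻¹ * (t * u) * (β u * t * t⁻¹) := by rw [htu]
    _ = u * β u := by group
    _ = z := hzz.symm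

/-- the key computation for all generators -/
theorem key_all (h : Cg α β Sa Sb Sc) {t x : W} (ht : t ∈ Sa ∨ t ∈ Sb ∨ t ∈ Sc)
    (hx : Pc α β x) (hxt : Pc α β (t⁻¹ * x * t))
    (hzt : t * nm α β x = nm α β x * t)
    (hz : nm α β x ∈ Fp α β)
    (hzx : ∀ v, v = x * α x ∨ v = x * β x ∨ v = x * α (β x) →
      v * nm α β x = nm α β x * v) :
    nm α β (t⁻¹ * x * t) = nm α β x := by
  obtain ⟨z1, z2⟩ := hz
  have z3 : (α.comp β) (nm α β x) = nm α β x := by
    show α (β (nm α β x)) = _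
    rw [z2, z1]
  have r1 := nm_rot h hx
  have r1' := nm_rot h hxt
  have r2 := nm_rot h.rot (Pc.rot h hx)
  have r2' := nm_rot h.rot (Pc.rot h hxt)
  rw [r1] at r2
  rw [r1'] at r2'
  rcases ht with ht | ht | ht
  · exact key h ht hx.a z1 z2 hzt (hzx _ (Or.inl rfl))
  · rw [← r1']
    rw [← r1] at z2 z3 hzt ⊢
    refine key h.rot ht hx.b z2 z3 hzt ?_
    rw [r1]
    exact hzx _ (Or.inr (Or.inl rfl))
  · rw [← r2']
    have e : (β.comp (α.comp β)) (nm α β x) = nm α β x := by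
      show β ((α.comp β) (nm α β x)) = _
      rw [z3, z2]
    rw [← r2] at z3 e hzt ⊢
    refine key h.rot.rot ht hx.c z3 e hzt ?_
    rw [r2]
    exact hzx _ (Or.inr (Or.inr rfl))

/-- an invariant subset of generators is everything -/
theorem top_of (h : Cg α β Sa Sb Sc) {p : W → Prop} (h1 : p 1) (hm : ∀ x y, p x → p y → p (x * y))
    (hi : ∀ x, p x → p x⁻¹) (hs : ∀ t, t ∈ Sa ∨ t ∈ Sb ∨ t ∈ Sc → p t) (x : W) : p x := by
  let H : Subgroup W :=
    { carrier := {x | p x}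
      one_mem' := h1
      mul_mem' := fun {x y} hx hy => hm x y hx hy
      inv_mem' := fun {x} hx => hi x hx }
  have hH : H = ⊤ := h.all_of H (fun t ht => hs t (Or.inl ht)) (fun t ht => hs t (Or.inr (Or.inl ht)))
    (fun t ht => hs t (Or.inr (Or.inr ht)))
  have : x ∈ H := by rw [hH]; exact Subgroup.mem_top x
  exact this

/-- `F` is in every nontrivial invariant normal subgroup -/
def Inf (α β : W →* W) : Prop := ∀ N : Subgroup W, N.Normal → (∀ x ∈ N, α x ∈ N) →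
  (∀ x ∈ N, β x ∈ N) → N ≠ ⊥ → ∀ f, α f = f → β f = f → f ∈ N

/-- pairwise commuting for elements of an abelian invariant subgroup -/
theorem pc_of {N : Subgroup W} (hα : ∀ x ∈ N, α x ∈ N) (hβ : ∀ x ∈ N, β x ∈ N)
    (hc : ∀ x ∈ N, ∀ y ∈ N, x * y = y * x) {x : W} (hx : x ∈ N) : Pc α β x :=
  ⟨hc _ hx _ (hα _ hx), hc _ hx _ (hβ _ hx), hc _ hx _ (hα _ (hβ _ hx))⟩

theorem nm_mem {N : Subgroup W} (hα : ∀ x ∈ N, α x ∈ N) (hβ : ∀ x ∈ N, β x ∈ N)
    {x : W} (hx : x ∈ N) : nm α β x ∈ N :=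
  N.mul_mem (N.mul_mem hx (hα _ hx)) (N.mul_mem (hβ _ hx) (hα _ (hβ _ hx)))

theorem nm_one : nm α β (1 : W) = 1 := by simp [nm]

theorem nm_fix (h : Cg α β Sa Sb Sc) {x : W} (hx : Pc α β x) : nm α β x ∈ Fp α β := by
  have c0 : β x * α (β x) = α (β x) * β x := by
    have h1 := congrArg β hx.a
    rw [map_mul, map_mul, ← h.ab] at h1
    exact h1
  have c1 : α x * β x = β x * α x := by
    have h1 := congrArg α hx.c
    rw [map_mul, map_mul, h.aa] at h1
    exact h1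
  have c2 : α x * α (β x) = α (β x) * α x := by
    have h1 := congrArg α hx.b
    rw [map_mul, map_mul] at h1
    exact h1
  constructor
  · unfold nm
    rw [map_mul, map_mul, map_mul, h.aa, h.aa, ← hx.a, c0]
  · unfold nm
    rw [map_mul, map_mul, map_mul, h.bb, ← h.ab, ← h.ab, h.bb]
    -- βx * αβx * (x * αx)
    calc β x * α (β x) * (x * α x) = β x * (x * α (β x)) * α x := by rw [hx.c]; group
      _ = x * β x * (α x * α (β x)) := by rw [c2, hx.b]; group
      _ = x * (α x * β x) * α (β x) := by rw [c1]; group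
      _ = x * α x * (β x * α (β x)) := by group

theorem nm_mul {N : Subgroup W} (hα : ∀ x ∈ N, α x ∈ N) (hβ : ∀ x ∈ N, β x ∈ N)
    (hc : ∀ x ∈ N, ∀ y ∈ N, x * y = y * x) {x y : W} (hx : x ∈ N) (hy : y ∈ N) :
    nm α β (x * y) = nm α β x * nm α β y := by
  have m4 : ∀ p q r s : W, q * r = r * q → (p * q) * (r * s) = (p * r) * (q * s) := by
    intro p q r s e
    rw [mul_assoc, ← mul_assoc q, e, mul_assoc, mul_assoc]
  unfold nm
  rw [map_mul, map_mul, map_mul]
  have a1 := hα x hx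
  have a2 := hα y hy
  have b1 := hβ x hx
  have b2 := hβ y hy
  have c1 := hα _ b1
  have c2 := hα _ b2
  rw [m4 x y (α x) (α y) (hc _ hy _ a1), m4 (β x) (β y) (α (β x)) (α (β y)) (hc _ b2 _ c1),
    m4 (x * α x) (y * α y) (β x * α (β x)) (β y * α (β y))
      (hc _ (N.mul_mem hy a2) _ (N.mul_mem b1 c1))]

/-- (B): abelian invariant normal subgroups consist of fixed points -/
theorem stepB (h : Cg α β Sa Sb Sc) (hI : Inf α β) (hF : ∃ f, α f = f ∧ β f = f ∧ f ≠ 1)
    {N : Subgroup W} (hN : N.Normal) (hα : ∀ x ∈ N, α x ∈ N) (hβ : ∀ x ∈ N, β x ∈ N)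
    (hc : ∀ x ∈ N, ∀ y ∈ N, x * y = y * x) : N ≤ Fp α β := by
  have hinv : ∀ x ∈ N, nm α β x⁻¹ = (nm α β x)⁻¹ := by
    intro x hx
    refine eq_inv_of_mul_eq_one_left ?_
    rw [← nm_mul hα hβ hc (N.inv_mem hx) hx, inv_mul_cancel, nm_one]
  let E : Subgroup W :=
    { carrier := {x | x ∈ N ∧ nm α β x = 1}
      one_mem' := ⟨N.one_mem, nm_one⟩
      mul_mem' := by
        rintro x y ⟨h1, h2⟩ ⟨h3, h4⟩
        exact ⟨N.mul_mem h1 h3, by rw [nm_mul hα hβ hc h1 h3, h2, h4, one_mul]⟩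
      inv_mem' := by
        rintro x ⟨h1, h2⟩
        exact ⟨N.inv_mem h1, by rw [hinv x h1, h2, inv_one]⟩ }
  have hE : ∀ x, x ∈ E ↔ x ∈ N ∧ nm α β x = 1 := fun x => Iff.rfl
  have hEα : ∀ x ∈ E, α x ∈ E := by
    rintro x ⟨h1, h2⟩
    refine ⟨hα x h1, ?_⟩
    have e : nm α β (α x) = α (nm α β x) := by
      unfold nm
      rw [map_mul, map_mul, map_mul, h.aa, ← h.ab, h.aa]
    rw [e, h2, map_one]
  have hEβ : ∀ x ∈ E, β x ∈ E := by
    rintro x ⟨h1, h2⟩
    refine ⟨hβ x h1, ?_⟩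
    have e : nm α β (β x) = β (nm α β x) := by
      unfold nm
      rw [map_mul, map_mul, map_mul, h.bb, h.ab, h.bb]
    rw [e, h2, map_one]
  have hEn : E.Normal := by
    have key1 : ∀ w : W, ∀ x ∈ E, w⁻¹ * x * w ∈ E := by
      have hconj : ∀ w x : W, x ∈ N → w⁻¹ * x * w ∈ N := by
        intro w x hx
        have := hN.conj_mem x hx w⁻¹
        rwa [inv_inv] at this
      have hfin := h.top_of (p := fun w => (∀ x ∈ E, w⁻¹ * x * w ∈ E) ∧ ∀ x ∈ E, w * x * w⁻¹ ∈ E)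
        ?_ ?_ ?_ ?_
      · exact fun w => (hfin w).1
      · exact ⟨fun x hx => by simpa using hx, fun x hx => by simpa using hx⟩
      · rintro v w ⟨h1, h2⟩ ⟨h3, h4⟩
        refine ⟨fun x hx => ?_, fun x hx => ?_⟩
        · have := h3 _ (h1 x hx)
          have e : (v * w)⁻¹ * x * (v * w) = w⁻¹ * (v⁻¹ * x * v) * w := by group
          rw [e]
          exact this
        · have := h2 _ (h4 x hx)
          have e : (v * w) * x * (v * w)⁻¹ = v * (w * x * w⁻¹) * v⁻¹ := by group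
          rw [e]
          exact this
      · rintro w ⟨h1, h2⟩
        exact ⟨fun x hx => by rw [inv_inv]; exact h2 x hx,
          fun x hx => by rw [inv_inv]; exact h1 x hx⟩
      · have hgen : ∀ t, t ∈ Sa ∨ t ∈ Sb ∨ t ∈ Sc → ∀ x ∈ E, t⁻¹ * x * t ∈ E := by
          rintro t ht x ⟨hx1, hx2⟩
          refine ⟨hconj t x hx1, ?_⟩
          rw [h.key_all ht (pc_of hα hβ hc hx1) (pc_of hα hβ hc (hconj t x hx1)) ?_ ?_ ?_, hx2]
          · rw [hx2, mul_one, one_mul]
          · rw [hx2]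
            exact (Fp α β).one_mem
          · intro v _
            rw [hx2, mul_one, one_mul]
        intro t ht
        refine ⟨hgen t ht, fun x hx => ?_⟩
        have ht' : t⁻¹ ∈ Sa ∨ t⁻¹ ∈ Sb ∨ t⁻¹ ∈ Sc := by
          rcases ht with ht | ht | ht
          · exact Or.inl (Sa.inv_mem ht)
          · exact Or.inr (Or.inl (Sb.inv_mem ht))
          · exact Or.inr (Or.inr (Sc.inv_mem ht))
        have := hgen t⁻¹ ht' x hx
        rwa [inv_inv] at this
    refine ⟨fun x hx w => ?_⟩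
    have := key1 w⁻¹ x hx
    rwa [inv_inv] at this
  have hE1 : E = ⊥ := by
    by_contra hne
    obtain ⟨f, f1, f2, f3⟩ := hF
    obtain ⟨_, h2⟩ := hI E hEn hEα hEβ hne f f1 f2
    apply f3
    refine one_of_four h.odd ?_
    unfold nm at h2
    rw [f2, f1] at h2
    have e : f ^ 4 = f * f * (f * f) := by
      rw [← sq, ← sq, ← pow_mul]
    rw [e, h2]
  intro x hx
  have hx4 : x ^ 4 = nm α β x := by
    have hm : nm α β x ∈ N := nm_mem hα hβ hx
    have hf := nm_fix h (pc_of hα hβ hc hx)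
    have hpow : ∀ n : ℕ, nm α β (x ^ n) = (nm α β x) ^ n := by
      intro n
      induction n with
      | zero => rw [pow_zero, pow_zero, nm_one]
      | succ n ih =>
        rw [pow_succ, nm_mul hα hβ hc (N.pow_mem hx n) hx, ih, pow_succ]
    have h4 : nm α β (nm α β x) = (nm α β x) ^ 4 := by
      obtain ⟨z, hz⟩ : ∃ z, z = nm α β x := ⟨_, rfl⟩
      rw [← hz] at hf ⊢
      obtain ⟨f1, f2⟩ := hf
      unfold nm
      rw [f2, f1, ← sq, ← sq, ← pow_mul]
    have h5 : x ^ 4 * (nm α β x)⁻¹ ∈ E := by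
      refine ⟨N.mul_mem (N.pow_mem hx 4) (N.inv_mem hm), ?_⟩
      rw [nm_mul hα hβ hc (N.pow_mem hx 4) (N.inv_mem hm), hinv _ hm, hpow, h4, mul_inv_cancel]
    rw [hE1, Subgroup.mem_bot] at h5
    exact mul_inv_eq_one.1 h5
  obtain ⟨f1, f2⟩ := nm_fix h (pc_of hα hβ hc hx)
  have hfx : ∀ σ : W →* W, (∀ y ∈ N, σ y ∈ N) → σ (nm α β x) = nm α β x → σ x = x := by
    intro σ hσ e
    rw [← hx4, map_pow] at e
    have cm : Commute x⁻¹ (σ x) := hc _ (N.inv_mem hx) _ (hσ x hx)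
    have h6 : (x⁻¹ * σ x) ^ 4 = 1 := by
      rw [cm.mul_pow, e, inv_pow, inv_mul_cancel]
    have h7 := one_of_four h.odd h6
    rw [inv_mul_eq_one] at h7
    exact h7.symm
  exact ⟨hfx α hα f1, hfx β hβ f2⟩

/-- (C): an invariant normal subgroup `Q` with central fixed commutators is abelian -/
theorem stepC (h : Cg α β Sa Sb Sc) (hz : ∀ f, α f = f → β f = f → ∀ w : W, f * w = w * f)
    {Q : Subgroup W} (hQ : Q.Normal) (hα : ∀ x ∈ Q, α x ∈ Q) (hβ : ∀ x ∈ Q, β x ∈ Q)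
    (hc : ∀ x ∈ Q, ∀ y ∈ Q, ⁅x, y⁆ ∈ Fp α β) : ∀ x ∈ Q, ∀ y ∈ Q, x * y = y * x := by
  have hinv : ∀ σ : W →* W, (∀ y, σ (σ y) = y) → (∀ f ∈ Fp α β, σ f = f) → ∀ x ∈ Q, σ x ∈ Q →
      x * σ x = σ x * x := by
    intro σ hs hf x hx hx'
    have h1 := hc x hx (σ x) hx'
    have h2 := hf _ h1
    rw [map_commutatorElement, hs, ← commutatorElement_inv] at h2
    have h3 := one_of_inv h.odd h2.symm
    exact commutatorElement_eq_one_iff_mul_comm.1 h3
  have hpc : ∀ x ∈ Q, Pc α β x := by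
    intro x hx
    refine ⟨hinv α h.aa (fun f hf => hf.1) x hx (hα x hx),
      hinv β h.bb (fun f hf => hf.2) x hx (hβ x hx),
      hinv (α.comp β) (fun y => ?_) (fun f hf => ?_) x hx (hα _ (hβ x hx))⟩
    · show α (β (α (β y))) = y
      rw [← h.ab (β y), h.bb, h.aa]
    · show α (β f) = f
      rw [hf.2, hf.1]
  have hconj : ∀ w x : W, x ∈ Q → w⁻¹ * x * w ∈ Q := by
    intro w x hx
    have := hQ.conj_mem x hx w⁻¹
    rwa [inv_inv] at this
  have hall := h.top_of (p := fun w => ∀ x ∈ Q, nm α β (w⁻¹ * x * w) = nm α β x) ?_ ?_ ?_ ?_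
  · intro x hx y hy
    -- `y⁻¹ x y = x κ`
    have h1 : x⁻¹ * (y⁻¹ * x * y) ∈ Fp α β := by
      have := hc x⁻¹ (Q.inv_mem hx) y⁻¹ (Q.inv_mem hy)
      have e : ⁅x⁻¹, y⁻¹⁆ = x⁻¹ * (y⁻¹ * x * y) := by
        rw [commutatorElement_def]
        group
      rwa [e] at this
    obtain ⟨k, hk⟩ : ∃ k, k = x⁻¹ * (y⁻¹ * x * y) := ⟨_, rfl⟩
    rw [← hk] at h1
    have hkz := hz k h1.1 h1.2
    have e1 : y⁻¹ * x * y = x * k := by rw [hk]; group
    have h2 := hall y x hx
    rw [e1] at h2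
    have e2 : nm α β (x * k) = nm α β x * k ^ 4 := by
      unfold nm
      rw [map_mul, map_mul, map_mul, h1.2, h1.1]
      have e4 : k ^ 4 = k * k * (k * k) := by rw [← sq, ← sq, ← pow_mul]
      rw [e4]
      have m1 : ∀ p q : W, p * k * (q * k) = p * q * (k * k) := by
        intro p q
        rw [mul_assoc, ← mul_assoc k, hkz q, mul_assoc q, ← mul_assoc]
      have m2 : ∀ p q : W, p * (k * k) * (q * (k * k)) = p * q * (k * k * (k * k)) := by
        intro p q
        have : k * k * q = q * (k * k) := by rw [mul_assoc, hkz q, ← mul_assoc, hkz q, mul_assoc]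
        rw [mul_assoc, ← mul_assoc (k * k), this, mul_assoc q, ← mul_assoc]
      rw [m1, m1, m2]
    rw [e2] at h2
    have h3 : k ^ 4 = 1 := by
      have := mul_left_cancel (a := nm α β x) (b := k ^ 4) (c := 1) (by rw [h2, mul_one])
      exact this
    have h4 := one_of_four h.odd h3
    rw [h4, mul_one] at e1
    calc x * y = y * (y⁻¹ * x * y) := by group
      _ = y * x := by rw [e1]
  · intro x _
    rw [inv_one, one_mul, mul_one]
  · intro v w h1 h2 x hx
    have e : (v * w)⁻¹ * x * (v * w) = w⁻¹ * (v⁻¹ * x * v) * w := by group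
    rw [e, h2 _ (hconj v x hx), h1 x hx]
  · intro w h1 x hx
    have hx' : w⁻¹⁻¹ * x * w⁻¹ ∈ Q := hconj w⁻¹ x hx
    rw [← h1 _ hx']
    congr 1
    group
  · intro t ht x hx
    have hf := nm_fix h (hpc x hx)
    refine h.key_all ht (hpc x hx) (hpc _ (hconj t x hx)) (hz _ hf.1 hf.2 t).symm hf ?_
    intro v _
    exact (hz _ hf.1 hf.2 v).symm

/-- the fixed points are trivial: the induction step -/
theorem step [Finite W] [Group.IsSolvable W] (h : Cg α β Sa Sb Sc) (hI : Inf α β) :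
    ∀ f, α f = f → β f = f → f = 1 := by
  by_contra hcon
  have hF : ∃ f, α f = f ∧ β f = f ∧ f ≠ 1 := by
    push Not at hcon
    exact hcon
  have hDα : ∀ (σ : W →* W) (n : ℕ), ∀ x ∈ derivedSeries W n, σ x ∈ derivedSeries W n := by
    intro σ n x hx
    have := map_derivedSeries_le_derivedSeries σ n
    exact this ⟨x, hx, rfl⟩
  obtain ⟨m, hm⟩ := (Group.isSolvable_def W).1 inferInstance
  -- the last nontrivial term
  have hnt : derivedSeries W 0 ≠ ⊥ := by
    rw [derivedSeries_zero]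
    intro e
    obtain ⟨f, _, _, f3⟩ := hF
    have : f ∈ (⊤ : Subgroup W) := Subgroup.mem_top f
    rw [e, Subgroup.mem_bot] at this
    exact f3 this
  obtain ⟨k, hk1, hk2⟩ : ∃ k, derivedSeries W k ≠ ⊥ ∧ derivedSeries W (k + 1) = ⊥ := by
    by_contra hno
    push Not at hno
    have : ∀ n, derivedSeries W n ≠ ⊥ := by
      intro n
      induction n with
      | zero => exact hnt
      | succ n ih => exact hno n ih
    exact this m hm
  have hcomm : ∀ x ∈ derivedSeries W k, ∀ y ∈ derivedSeries W k, x * y = y * x := by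
    intro x hx y hy
    have h1 : ⁅x, y⁆ ∈ derivedSeries W (k + 1) := by
      rw [derivedSeries_succ]
      exact Subgroup.commutator_mem_commutator hx hy
    rw [hk2, Subgroup.mem_bot] at h1
    exact commutatorElement_eq_one_iff_mul_comm.1 h1
  have hN : (derivedSeries W k).Normal := derivedSeries_normal W k
  have hle := h.stepB hI hF hN (hDα α k) (hDα β k) hcomm
  have hge : Fp α β ≤ derivedSeries W k := fun f hf =>
    hI _ hN (hDα α k) (hDα β k) hk1 f hf.1 hf.2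
  have hFN : Fp α β = derivedSeries W k := le_antisymm hge hle
  have hFn : (Fp α β).Normal := hFN ▸ hN
  -- `F` is central
  have hz0 : ∀ w : W, ∀ f ∈ Fp α β, f * w = w * f := by
    intro w
    refine h.top_of (p := fun w => ∀ f ∈ Fp α β, f * w = w * f) ?_ ?_ ?_ ?_ w
    · intro f _
      rw [mul_one, one_mul]
    · intro x y h1 h2 f hf
      rw [← mul_assoc, h1 f hf, mul_assoc, h2 f hf, mul_assoc]
    · intro x h1 f hf
      have := h1 f hf
      calc f * x⁻¹ = x⁻¹ * (x * f) * x⁻¹ := by group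
        _ = x⁻¹ * (f * x) * x⁻¹ := by rw [this]
        _ = x⁻¹ * f := by group
    · intro t ht f hf
      have hy : t⁻¹ * (f⁻¹ * t * f) ∈ Fp α β := by
        have h1 := hFn.conj_mem f⁻¹ ((Fp α β).inv_mem hf) t⁻¹
        have h2 := (Fp α β).mul_mem h1 hf
        have e : t⁻¹ * f⁻¹ * t⁻¹⁻¹ * f = t⁻¹ * (f⁻¹ * t * f) := by group
        rwa [e] at h2
      have hy1 : t⁻¹ * (f⁻¹ * t * f) = 1 := by
        rcases ht with ht | ht | ht
        · have h3 := h.sa _ (Sa.mul_mem (Sa.inv_mem ht) (h.na f hf.1 hf.2 t ht))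
          exact one_of_inv h.odd (by rw [← h3.2, hy.2])
        · have h3 := h.sb _ (Sb.mul_mem (Sb.inv_mem ht) (h.nb f hf.1 hf.2 t ht))
          exact one_of_inv h.odd (by rw [← h3.1, hy.1])
        · have h3 := h.sc _ (Sc.mul_mem (Sc.inv_mem ht) (h.nc f hf.1 hf.2 t ht))
          exact one_of_inv h.odd (by rw [← h3.1, hy.1])
      have h5 : t = f⁻¹ * t * f := by
        rw [inv_mul_eq_one] at hy1
        exact hy1
      calc f * t = f * (f⁻¹ * t * f) := by rw [← h5]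
        _ = t * f := by group
  -- the last term not in `F`
  have h0 : ¬ derivedSeries W 0 ≤ Fp α β := by
    rw [derivedSeries_zero]
    intro hle0
    have hall : ∀ w : W, w = 1 := by
      intro w
      refine h.top_of (p := fun w => w = 1) rfl ?_ ?_ ?_ w
      · rintro x y rfl rfl
        exact one_mul 1
      · rintro x rfl
        exact inv_one
      · intro t ht
        obtain ⟨t1, t2⟩ := hle0 (Subgroup.mem_top t)
        rcases ht with ht | ht | ht
        · exact one_of_inv h.odd (by rw [← (h.sa t ht).2, t2])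
        · exact one_of_inv h.odd (by rw [← (h.sb t ht).1, t1])
        · exact one_of_inv h.odd (by rw [← (h.sc t ht).1, t1])
    obtain ⟨f, _, _, f3⟩ := hF
    exact f3 (hall f)
  obtain ⟨j, hj1, hj2⟩ : ∃ j, ¬ derivedSeries W j ≤ Fp α β ∧ derivedSeries W (j + 1) ≤ Fp α β := by
    by_contra hno
    push Not at hno
    have : ∀ n, ¬ derivedSeries W n ≤ Fp α β := by
      intro n
      induction n with
      | zero => exact h0
      | succ n ih => exact hno n ih
    apply this m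
    rw [hm]
    exact bot_le
  have hQ : (derivedSeries W j).Normal := derivedSeries_normal W j
  have hQc := h.stepC (fun f f1 f2 w => hz0 w f ⟨f1, f2⟩) hQ (hDα α j) (hDα β j) (by
    intro x hx y hy
    apply hj2
    rw [derivedSeries_succ]
    exact Subgroup.commutator_mem_commutator hx hy)
  exact hj1 (h.stepB hI hF hQ (hDα α j) (hDα β j) hQc)

end Cg

/-- **Flatness**, finite soluble groups. -/
theorem flat_fin : ∀ (n : ℕ) (W : Type u) [Group W] [Finite W] [Group.IsSolvable W] (α β : W →* W)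
    (Sa Sb Sc : Subgroup W), Nat.card W = n → Cg α β Sa Sb Sc →
    ∀ f, α f = f → β f = f → f = 1 := by
  intro n
  induction n using Nat.strong_induction_on with
  | _ n ih =>
    intro W _ _ _ α β Sa Sb Sc hn h
    refine h.step ?_
    intro N hN hα hβ hne f f1 f2
    have hlt : Nat.card (W ⧸ N) < Nat.card W := by
      have h1 := N.card_eq_card_quotient_mul_card_subgroup
      have h2 : 1 < Nat.card N := (Subgroup.one_lt_card_iff_ne_bot N).2 hne
      have h3 : 0 < Nat.card (W ⧸ N) := Nat.card_pos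
      rw [h1]
      exact lt_mul_of_one_lt_right h3 h2
    have h4 := ih _ (hn ▸ hlt) (W ⧸ N) (QuotientGroup.map N N α hα) (QuotientGroup.map N N β hβ)
      _ _ _ rfl (h.quot N hα hβ) (QuotientGroup.mk' N f) (by
        show QuotientGroup.mk' N (α f) = _
        rw [f1]) (by
        show QuotientGroup.mk' N (β f) = _
        rw [f2])
    have h5 : f ∈ (QuotientGroup.mk' N).ker := h4
    rwa [QuotientGroup.ker_mk'] at h5

end Pool.Agent.FourGp.H28f
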