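import Pool.Agent.Lib.MP_fb3619_al.FP.Iface
import Pool.Agent.Lib.MP_fb3619_al.H28.Flat

/-!
# MP_fb3619_al, board FPF: FLATNESS (row FLAT): auxiliary lemmas
-/

set_option autoImplicit false

universe u

namespace Pool.Agent.FourGp.FF.Fp

open Pool.Agent.FourGp.H47 (Odd')
open Pool.Agent.FourGp.H99 (LF)
open Pool.Agent.FourGp.FF.Pq (TA mem_TA)
open Pool.Agent.FourGp.H28f

namespace FlatK

variable {G : Type u} [Group G] {K : Subgroup G} {a b c : G}

theorem fin_of_LF {D Γ : Subgroup G} (hD : LF D) (hle : Γ ≤ D) (hfg : Γ.FG) : Finite Γ := by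
  have h2 : (Γ.subgroupOf D).FG := by
    obtain ⟨S, hS⟩ := hfg
    have hSD : ∀ x ∈ S, x ∈ D := fun x hx => hle (hS ▸ Subgroup.subset_closure hx)
    rw [Subgroup.fg_iff]
    refine ⟨{x : D | (x : G) ∈ S}, ?_, ?_⟩
    · apply le_antisymm
      · rw [Subgroup.closure_le]
        intro x hx
        rw [SetLike.mem_coe, Subgroup.mem_subgroupOf, ← hS]
        exact Subgroup.subset_closure hx
      · intro x hx
        rw [Subgroup.mem_subgroupOf, ← hS] at hx
        have key : ∀ y : G, ∀ hy : y ∈ Subgroup.closure (S : Set G), ∃ z : D, (z : G) = y ∧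
            z ∈ Subgroup.closure {x : D | (x : G) ∈ S} := by
          intro y hy
          induction hy using Subgroup.closure_induction with
          | mem x hx => exact ⟨⟨x, hSD x hx⟩, rfl, Subgroup.subset_closure hx⟩
          | one => exact ⟨1, rfl, Subgroup.one_mem _⟩
          | mul x y _ _ hx hy =>
            obtain ⟨z, rfl, h1⟩ := hx
            obtain ⟨w, rfl, h2⟩ := hy
            exact ⟨z * w, rfl, Subgroup.mul_mem _ h1 h2⟩
          | inv x _ hx =>
            obtain ⟨z, rfl, h1⟩ := hx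
            exact ⟨z⁻¹, rfl, Subgroup.inv_mem _ h1⟩
        obtain ⟨z, h1, h2⟩ := key x hx
        have : z = x := Subtype.ext h1
        rwa [this] at h2
    · exact S.finite_toSet.preimage Subtype.val_injective.injOn
  have h3 := hD _ h2
  exact Finite.of_equiv _ (Subgroup.subgroupOfEquivOfLe hle).toEquiv

theorem odd_card {Γ : Subgroup G} [Finite Γ] (h : ∀ x ∈ Γ, Odd' x) : Odd (Nat.card Γ) := by
  rw [← Nat.not_even_iff_odd, even_iff_two_dvd]
  intro h2
  have := Fact.mk Nat.prime_two
  obtain ⟨x, hx⟩ := exists_prime_orderOf_dvd_card' (G := Γ) 2 h2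
  obtain ⟨n, hn⟩ := h x.1 x.2
  have h3 : x ^ (2 * n + 1) = 1 := Subtype.ext hn
  have h4 := orderOf_dvd_of_pow_eq_one h3
  rw [hx] at h4
  omega

/-- conjugation by an involution -/
def cji (W : Subgroup G) (z : G) (hz : z * z = 1) (hW : ∀ x ∈ W, z * x * z ∈ W) : W →* W where
  toFun x := ⟨z * x.1 * z, hW _ x.2⟩
  map_one' := Subtype.ext (by
    show z * 1 * z = 1
    rw [mul_one, hz])
  map_mul' x y := Subtype.ext (by
    show z * (x.1 * y.1) * z = z * x.1 * z * (z * y.1 * z)
    calc z * (x.1 * y.1) * z = z * x.1 * 1 * y.1 * z := by group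
      _ = z * x.1 * (z * z) * y.1 * z := by rw [hz]
      _ = _ := by group)

theorem cji_val (W : Subgroup G) (z : G) (hz : z * z = 1) (hW : ∀ x ∈ W, z * x * z ∈ W) (x : W) :
    ((cji W z hz hW x : W) : G) = z * x.1 * z := rfl

theorem inv_of_comm {z x : G} (hz : z * z = 1) (h : x * z = z * x) : z * x * z = x := by
  rw [mul_assoc, h, ← mul_assoc, hz, one_mul]

theorem comm_of_fix {z x : G} (hz : z * z = 1) (h : z * x * z = x) : x * z = z * x := by
  calc x * z = z * x * z * z := by rw [h]
    _ = z * x * (z * z) := by group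
    _ = z * x := by rw [hz, mul_one]

theorem cj3 (h : Fr K a b c) (x : G) : c * x * c = a * (b * x * b) * a := by
  calc c * x * c = (a * b) * x * (b * a) := by rw [h.ab, h.ba]
    _ = _ := by group

end FlatK

end Pool.Agent.FourGp.FF.Fp
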