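import Pool.Agent.Lib.MP_fb3619_al.H28.FlatK
import Pool.Agent.Lib.MP_fb3619_al.H28.FlatU

/-!
# MP_fb3619_al, board FPF: FLATNESS (row FLAT) without solubility, from `H28/FlatU.lean`
-/

set_option autoImplicit false

universe u

namespace Pool.Agent.FourGp.FF.Fp

open Pool.Agent.FourGp.H47 (Odd')
open Pool.Agent.FourGp.H99 (LF)
open Pool.Agent.FourGp.FF.Pq (TA mem_TA)
open Pool.Agent.FourGp.H28f

namespace FlatK

variable {G : Type u} [Group G] {K : Subgroup G} {a b c : G}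

/-- a finite configuration is flat -/
theorem fin_case' (hfl : FlfS.{u}) (h : Fr K a b c) {W Sa Sb Sc : Subgroup G}
    (hW : W = Sa ⊔ Sb ⊔ Sc) [Finite W] (hSa : Sa ≤ TA K a b) (hSb : Sb ≤ TA K b a)
    (hSc : Sc ≤ TA K c a)
    (hn : ∀ f ∈ W, f ∈ Fx K a b → (∀ s ∈ Sa, f⁻¹ * s * f ∈ Sa) ∧
      (∀ s ∈ Sb, f⁻¹ * s * f ∈ Sb) ∧ ∀ s ∈ Sc, f⁻¹ * s * f ∈ Sc) :
    ∀ f ∈ W, f ∈ Fx K a b → f = 1 := by
  have ta : ∀ x ∈ Sa, x ∈ K ∧ a * x * a = x ∧ b * x * b = x⁻¹ := by
    intro x hx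
    obtain ⟨⟨h1, h2⟩, _⟩ := (mem_TA h).1 (hSa hx)
    obtain ⟨h3, h4⟩ := mem_Cz.1 h1
    exact ⟨h3, inv_of_comm h.aa h4, h2⟩
  have tb : ∀ x ∈ Sb, x ∈ K ∧ a * x * a = x⁻¹ ∧ b * x * b = x := by
    intro x hx
    obtain ⟨⟨h1, h2⟩, _⟩ := (mem_TA h.swap).1 (hSb hx)
    obtain ⟨h3, h4⟩ := mem_Cz.1 h1
    exact ⟨h3, h2, inv_of_comm h.bb h4⟩
  have tc : ∀ x ∈ Sc, x ∈ K ∧ a * x * a = x⁻¹ ∧ b * x * b = x⁻¹ := by
    intro x hx
    obtain ⟨⟨h1, h2⟩, _⟩ := (mem_TA h.rot.rot).1 (hSc hx)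
    obtain ⟨h3, h4⟩ := mem_Cz.1 h1
    refine ⟨h3, h2, ?_⟩
    have h5 := inv_of_comm h.cc h4
    rw [cj3 h] at h5
    have h6 : b * x * b = a * x * a := by
      calc b * x * b = (a * a) * (b * x * b) * (a * a) := by rw [h.aa]; group
        _ = a * (a * (b * x * b) * a) * a := by group
        _ = a * x * a := by rw [h5]
    rw [h6, h2]
  have hWK : W ≤ K := by
    rw [hW]
    exact sup_le (sup_le (fun x hx => (ta x hx).1) (fun x hx => (tb x hx).1))
      (fun x hx => (tc x hx).1)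
  have haW : Sa ≤ W := by rw [hW]; exact le_sup_left.trans le_sup_left
  have hbW : Sb ≤ W := by rw [hW]; exact le_sup_right.trans le_sup_left
  have hcW : Sc ≤ W := by rw [hW]; exact le_sup_right
  -- invariance
  have inv_z : ∀ z : G, z * z = 1 → (∀ x ∈ Sa, z * x * z ∈ Sa) → (∀ x ∈ Sb, z * x * z ∈ Sb) →
      (∀ x ∈ Sc, z * x * z ∈ Sc) → ∀ x ∈ W, z * x * z ∈ W := by
    intro z hz h1 h2 h3 x hx
    let H : Subgroup G :=
      { carrier := {x | z * x * z ∈ W}
        one_mem' := by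
          show z * 1 * z ∈ W
          rw [mul_one, hz]
          exact W.one_mem
        mul_mem' := by
          intro x y hx hy
          show z * (x * y) * z ∈ W
          have e : z * (x * y) * z = z * x * z * (z * y * z) := by
            calc z * (x * y) * z = z * x * 1 * y * z := by group
              _ = z * x * (z * z) * y * z := by rw [hz]
              _ = _ := by group
          rw [e]
          exact W.mul_mem hx hy
        inv_mem' := by
          intro x hx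
          show z * x⁻¹ * z ∈ W
          have hz' : z⁻¹ = z := inv_eq_of_mul_eq_one_left hz
          have e : z * x⁻¹ * z = (z * x * z)⁻¹ := by
            rw [mul_inv_rev, mul_inv_rev, hz', mul_assoc]
          rw [e]
          exact W.inv_mem hx }
    have hH : W ≤ H := by
      nth_rewrite 1 [hW]
      exact sup_le (sup_le (fun x hx => haW (h1 x hx)) (fun x hx => hbW (h2 x hx)))
        (fun x hx => hcW (h3 x hx))
    exact hH hx
  have hWa : ∀ x ∈ W, a * x * a ∈ W := inv_z a h.aa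
    (fun x hx => by rw [(ta x hx).2.1]; exact hx)
    (fun x hx => by rw [(tb x hx).2.1]; exact Sb.inv_mem hx)
    (fun x hx => by rw [(tc x hx).2.1]; exact Sc.inv_mem hx)
  have hWb : ∀ x ∈ W, b * x * b ∈ W := inv_z b h.bb
    (fun x hx => by rw [(ta x hx).2.2]; exact Sa.inv_mem hx)
    (fun x hx => by rw [(tb x hx).2.2]; exact hx)
    (fun x hx => by rw [(tc x hx).2.2]; exact Sc.inv_mem hx)
  -- fixed points
  have hfx : ∀ x : W, cji W a h.aa hWa x = x → cji W b h.bb hWb x = x → (x : G) ∈ Fx K a b := by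
    intro x h1 h2
    have h1' := congrArg Subtype.val h1
    have h2' := congrArg Subtype.val h2
    rw [cji_val] at h1' h2'
    exact mem_Fx.2 ⟨hWK x.2, comm_of_fix h.aa h1', comm_of_fix h.bb h2'⟩
  have hcfg : Cg (cji W a h.aa hWa) (cji W b h.bb hWb) (Sa.subgroupOf W) (Sb.subgroupOf W)
      (Sc.subgroupOf W) := by
    refine ⟨?_, ?_, ?_, ?_, ?_, ?_, ?_, ?_, ?_, ?_, ?_, ?_, ?_, ?_⟩
    · exact odd_card (fun x hx => h.odd x (hWK hx))
    · intro x
      apply Subtype.ext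
      rw [cji_val, cji_val]
      calc a * (a * x.1 * a) * a = (a * a) * x.1 * (a * a) := by group
        _ = x.1 := by rw [h.aa, one_mul, mul_one]
    · intro x
      apply Subtype.ext
      rw [cji_val, cji_val]
      calc b * (b * x.1 * b) * b = (b * b) * x.1 * (b * b) := by group
        _ = x.1 := by rw [h.bb, one_mul, mul_one]
    · intro x
      apply Subtype.ext
      rw [cji_val, cji_val, cji_val, cji_val]
      calc a * (b * x.1 * b) * a = (a * b) * x.1 * (b * a) := by group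
        _ = (b * a) * x.1 * (a * b) := by rw [h.cab]
        _ = _ := by group
    · intro s hs
      obtain ⟨_, h2, h3⟩ := ta s.1 (Subgroup.mem_subgroupOf.1 hs)
      exact ⟨Subtype.ext h2, Subtype.ext h3⟩
    · intro s hs
      obtain ⟨_, h2, h3⟩ := tb s.1 (Subgroup.mem_subgroupOf.1 hs)
      exact ⟨Subtype.ext h2, Subtype.ext h3⟩
    · intro s hs
      obtain ⟨_, h2, h3⟩ := tc s.1 (Subgroup.mem_subgroupOf.1 hs)
      exact ⟨Subtype.ext h2, Subtype.ext h3⟩
    · intro s hs x h1 h2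
      have h1' := congrArg Subtype.val h1
      have h2' := congrArg Subtype.val h2
      rw [cji_val] at h1' h2'
      apply Subtype.ext
      exact ((mem_TA h).1 (hSa (Subgroup.mem_subgroupOf.1 hs))).2 _
        ⟨mem_Cz.2 ⟨hWK x.2, comm_of_fix h.aa h1'⟩, h2'⟩
    · intro s hs x h1 h2
      have h1' := congrArg Subtype.val h1
      have h2' := congrArg Subtype.val h2
      rw [cji_val] at h1' h2'
      apply Subtype.ext
      exact ((mem_TA h.swap).1 (hSb (Subgroup.mem_subgroupOf.1 hs))).2 _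
        ⟨mem_Cz.2 ⟨hWK x.2, comm_of_fix h.bb h2'⟩, h1'⟩
    · intro s hs x h1 h2
      have h1' : a * x.1 * a = x.1⁻¹ := congrArg Subtype.val h1
      have h2' : b * x.1 * b = x.1⁻¹ := congrArg Subtype.val h2
      apply Subtype.ext
      have ha' : a⁻¹ = a := inv_eq_of_mul_eq_one_left h.aa
      have h3 : c * x.1 * c = x.1 := by
        rw [cj3 h, h2']
        calc a * x.1⁻¹ * a = (a * x.1 * a)⁻¹ := by rw [mul_inv_rev, mul_inv_rev, ha', mul_assoc]
          _ = x.1 := by rw [h1', inv_inv]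
      exact ((mem_TA h.rot.rot).1 (hSc (Subgroup.mem_subgroupOf.1 hs))).2 _
        ⟨mem_Cz.2 ⟨hWK x.2, comm_of_fix h.cc h3⟩, h1'⟩
    · intro f h1 h2 s hs
      exact Subgroup.mem_subgroupOf.2 ((hn f.1 f.2 (hfx f h1 h2)).1 s.1
        (Subgroup.mem_subgroupOf.1 hs))
    · intro f h1 h2 s hs
      exact Subgroup.mem_subgroupOf.2 ((hn f.1 f.2 (hfx f h1 h2)).2.1 s.1
        (Subgroup.mem_subgroupOf.1 hs))
    · intro f h1 h2 s hs
      exact Subgroup.mem_subgroupOf.2 ((hn f.1 f.2 (hfx f h1 h2)).2.2 s.1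
        (Subgroup.mem_subgroupOf.1 hs))
    · rw [← Subgroup.subgroupOf_sup haW hbW, ← Subgroup.subgroupOf_sup (sup_le haW hbW) hcW,
        ← hW, Subgroup.subgroupOf_self]
  intro f hf hfF
  obtain ⟨_, h1, h2⟩ := mem_Fx.1 hfF
  have := hfl W _ _ _ _ _ hcfg ⟨f, hf⟩ (Subtype.ext (inv_of_comm h.aa h1))
    (Subtype.ext (inv_of_comm h.bb h2))
  exact congrArg Subtype.val this

end FlatK

open FlatK

/-- FLATNESS without the hypothesis `SS` -/
def FlatS' : Prop := ∀ (G : Type u) [Group G] (K : Subgroup G) (a b c : G), Fr K a b c →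
  (Fx K a b : Set G).Finite → ∀ Sa Sb Sc : Subgroup G, Sa ≤ TA K a b → Sb ≤ TA K b a →
  Sc ≤ TA K c a → LF (Sa ⊔ Sb ⊔ Sc : Subgroup G) →
  (∀ f ∈ Sa ⊔ Sb ⊔ Sc, f ∈ Fx K a b → (∀ s ∈ Sa, f⁻¹ * s * f ∈ Sa) ∧
    (∀ s ∈ Sb, f⁻¹ * s * f ∈ Sb) ∧ ∀ s ∈ Sc, f⁻¹ * s * f ∈ Sc) →
  ∀ f ∈ Sa ⊔ Sb ⊔ Sc, f ∈ Fx K a b → f = 1

/-- **FLATNESS.** -/
theorem flat' (hfl : FlfS.{u}) : FlatS'.{u} := by
  intro G _ K a b c h hF Sa Sb Sc hSa hSb hSc hLF hn f0 hf0 hf0F
  -- a finite set of generators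
  have hex : ∃ A B C : Set G, A.Finite ∧ B.Finite ∧ C.Finite ∧ A ⊆ Sa ∧ B ⊆ Sb ∧ C ⊆ Sc ∧
      f0 ∈ Subgroup.closure A ⊔ Subgroup.closure B ⊔ Subgroup.closure C := by
    have hcl : (Sa ⊔ Sb ⊔ Sc : Subgroup G) = Subgroup.closure ((Sa : Set G) ∪ Sb ∪ Sc) := by
      rw [Subgroup.closure_union, Subgroup.closure_union, Subgroup.closure_eq,
        Subgroup.closure_eq, Subgroup.closure_eq]
    have hf1 : f0 ∈ Subgroup.closure ((Sa : Set G) ∪ Sb ∪ Sc) := hcl ▸ hf0
    refine Subgroup.closure_induction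
      (p := fun x _ => ∃ A B C : Set G, A.Finite ∧ B.Finite ∧ C.Finite ∧ A ⊆ Sa ∧ B ⊆ Sb ∧ C ⊆ Sc ∧
      x ∈ Subgroup.closure A ⊔ Subgroup.closure B ⊔ Subgroup.closure C) ?_ ?_ ?_ ?_ hf1
    · rintro x ((hx | hx) | hx)
      · exact ⟨{x}, ∅, ∅, Set.finite_singleton x, Set.finite_empty, Set.finite_empty,
          Set.singleton_subset_iff.2 hx, Set.empty_subset _, Set.empty_subset _,
          Subgroup.mem_sup_left (Subgroup.mem_sup_left (Subgroup.subset_closure rfl))⟩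
      · exact ⟨∅, {x}, ∅, Set.finite_empty, Set.finite_singleton x, Set.finite_empty,
          Set.empty_subset _, Set.singleton_subset_iff.2 hx, Set.empty_subset _,
          Subgroup.mem_sup_left (Subgroup.mem_sup_right (Subgroup.subset_closure rfl))⟩
      · exact ⟨∅, ∅, {x}, Set.finite_empty, Set.finite_empty, Set.finite_singleton x,
          Set.empty_subset _, Set.empty_subset _, Set.singleton_subset_iff.2 hx,
          Subgroup.mem_sup_right (Subgroup.subset_closure rfl)⟩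
    · exact ⟨∅, ∅, ∅, Set.finite_empty, Set.finite_empty, Set.finite_empty, Set.empty_subset _,
        Set.empty_subset _, Set.empty_subset _, Subgroup.one_mem _⟩
    · rintro x y _ _ ⟨A, B, C, a1, b1, c1, a2, b2, c2, hx⟩ ⟨A', B', C', a3, b3, c3, a4, b4, c4, hy⟩
      refine ⟨A ∪ A', B ∪ B', C ∪ C', a1.union a3, b1.union b3, c1.union c3,
        Set.union_subset a2 a4, Set.union_subset b2 b4, Set.union_subset c2 c4,
        Subgroup.mul_mem _ ?_ ?_⟩
      · exact sup_le_sup (sup_le_sup (Subgroup.closure_mono Set.subset_union_left)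
          (Subgroup.closure_mono Set.subset_union_left))
          (Subgroup.closure_mono Set.subset_union_left) hx
      · exact sup_le_sup (sup_le_sup (Subgroup.closure_mono Set.subset_union_right)
          (Subgroup.closure_mono Set.subset_union_right))
          (Subgroup.closure_mono Set.subset_union_right) hy
    · rintro x _ ⟨A, B, C, a1, b1, c1, a2, b2, c2, hx⟩
      exact ⟨A, B, C, a1, b1, c1, a2, b2, c2, Subgroup.inv_mem _ hx⟩
  obtain ⟨A, B, C, hAf, hBf, hCf, hA, hB, hC, hf1⟩ := hex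
  -- the finite group `F ∩ W`
  let FW : Subgroup G := (Sa ⊔ Sb ⊔ Sc) ⊓ Fx K a b
  have hFW : (FW : Set G).Finite := hF.subset (fun x hx => hx.2)
  let cl : Set G → Set G := fun A => {x | ∃ f ∈ FW, ∃ s ∈ A, x = f⁻¹ * s * f}
  have hclf : ∀ A : Set G, A.Finite → (cl A).Finite := by
    intro A hA
    refine ((hFW.prod hA).image (fun p => p.1⁻¹ * p.2 * p.1)).subset ?_
    rintro x ⟨f, hf, s, hs, rfl⟩
    exact ⟨(f, s), ⟨hf, hs⟩, rfl⟩
  have hsub : ∀ A : Set G, A ⊆ cl A := fun A x hx => ⟨1, FW.one_mem, x, hx, by group⟩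
  have hclS : ∀ (S : Subgroup G) (A : Set G), A ⊆ S → (∀ f ∈ FW, ∀ s ∈ S, f⁻¹ * s * f ∈ S) →
      Subgroup.closure (cl A) ≤ S := by
    intro S A hA hS
    rw [Subgroup.closure_le]
    rintro x ⟨f, hf, s, hs, rfl⟩
    exact hS f hf s (hA hs)
  have hcln : ∀ A : Set G, ∀ f ∈ FW, ∀ s ∈ Subgroup.closure (cl A),
      f⁻¹ * s * f ∈ Subgroup.closure (cl A) := by
    intro A f hf s hs
    refine Subgroup.closure_induction (p := fun x _ => f⁻¹ * x * f ∈ Subgroup.closure (cl A))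
      ?_ ?_ ?_ ?_ hs
    · rintro x ⟨g, hg, s, hs, rfl⟩
      exact Subgroup.subset_closure ⟨g * f, FW.mul_mem hg hf, s, hs, by group⟩
    · have e : f⁻¹ * 1 * f = 1 := by group
      rw [e]
      exact Subgroup.one_mem _
    · intro x y _ _ hx hy
      have e : f⁻¹ * (x * y) * f = f⁻¹ * x * f * (f⁻¹ * y * f) := by group
      rw [e]
      exact Subgroup.mul_mem _ hx hy
    · intro x _ hx
      have e : f⁻¹ * x⁻¹ * f = (f⁻¹ * x * f)⁻¹ := by group
      rw [e]
      exact Subgroup.inv_mem _ hx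
  have hA' : Subgroup.closure (cl A) ≤ Sa := hclS Sa A hA (fun f hf s hs => (hn f hf.1 hf.2).1 s hs)
  have hB' : Subgroup.closure (cl B) ≤ Sb :=
    hclS Sb B hB (fun f hf s hs => (hn f hf.1 hf.2).2.1 s hs)
  have hC' : Subgroup.closure (cl C) ≤ Sc :=
    hclS Sc C hC (fun f hf s hs => (hn f hf.1 hf.2).2.2 s hs)
  have hWle : Subgroup.closure (cl A) ⊔ Subgroup.closure (cl B) ⊔ Subgroup.closure (cl C)
      ≤ Sa ⊔ Sb ⊔ Sc := sup_le_sup (sup_le_sup hA' hB') hC'
  have hfg : (Subgroup.closure (cl A) ⊔ Subgroup.closure (cl B) ⊔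
      Subgroup.closure (cl C) : Subgroup G).FG := by
    rw [← Subgroup.closure_union, ← Subgroup.closure_union, Subgroup.fg_iff]
    exact ⟨_, rfl, ((hclf A hAf).union (hclf B hBf)).union (hclf C hCf)⟩
  have : Finite (Subgroup.closure (cl A) ⊔ Subgroup.closure (cl B) ⊔
      Subgroup.closure (cl C) : Subgroup G) := fin_of_LF hLF hWle hfg
  refine fin_case' hfl h rfl (hA'.trans hSa) (hB'.trans hSb) (hC'.trans hSc) ?_ f0 ?_ hf0F
  · intro f hf hfF
    have hfW : f ∈ FW := ⟨hWle hf, hfF⟩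
    exact ⟨hcln A f hfW, hcln B f hfW, hcln C f hfW⟩
  · exact sup_le_sup (sup_le_sup (Subgroup.closure_mono (hsub A))
      (Subgroup.closure_mono (hsub B))) (Subgroup.closure_mono (hsub C)) hf1

end Pool.Agent.FourGp.FF.Fp
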